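import Pool.Agent.Y88.MH.Final

set_option autoImplicit false

/-!
# Multigraded Hilbert schemes which consist of `2 ^ N` points

The starting result `Disconnected` gives a grading of `k[x, y, z]` by `ℤ × ℤ` and a Hilbert function
for which the multigraded Hilbert scheme consists of two points. Here: for all `N ≥ 1`, all
`n ≥ 3 N` and all abelian groups `B` which contain a copy of `ℤ ^ (2 N)` there are a grading of
`k[x_1, ..., x_n]` by `B` and a Hilbert function for which the multigraded Hilbert scheme is
the spectrum of `k ^ (2 ^ N)`. In particular (`N = 1`): for every number `n ≥ 3` of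
variables and every grading group of rank at least two there are disconnected multigraded Hilbert
schemes.

Proof: the Hilbert functor of two polynomial rings glued at their constants (all products of a
variable of the first and a variable of the second have degrees in which the Hilbert function
vanishes) is the product of the two Hilbert functors; new variables in such degrees do not change
the Hilbert functor.
-/

namespace Pool.Agent.Results.MP_411355_ag.ManyPoints

open Pool.Agent.Results.MP_411355_ag.Disconnected Pool.Agent.Y88.MH CategoryTheory
  AlgebraicGeometry

universe u

/-- For every field `k`, all `N ≥ 1` and `n ≥ 3 N` and every abelian group `B` that contains a copy of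
`(ℤ × ℤ) ^ N` there are a grading of `k[x_1, ..., x_n]` by `B` and a function `h : B → ℕ` whose
multigraded Hilbert scheme is the spectrum of the ring of all functions on a set
of `2 ^ N` elements, in particular not connected. -/
theorem result (k : Type u) [Field k] (N n : ℕ) (hN : 1 ≤ N) (hn : 3 * N ≤ n) (B : Type)
    [AddCommGroup B] (f : (Fin N → ℤ × ℤ) →+ B) (hf : Function.Injective f) :
    ∃ (w : Fin n → B) (h : B → ℕ),
      RepresentsHilb k w h (Spec (CommRingCat.of (Fin (2 ^ N) → k)))
        (Spec.map (CommRingCat.ofHom (algebraMap k (Fin (2 ^ N) → k)))) ∧
      ¬ ConnectedSpace (Spec (CommRingCat.of (Fin (2 ^ N) → k))) := by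
  obtain ⟨w, h, H⟩ := many k N n hN hn B f hf
  refine ⟨w, h, H.represents, not_connected k _ ?_⟩
  calc 2 = 2 ^ 1 := rfl
    _ ≤ 2 ^ N := Nat.pow_le_pow_right (by norm_num) hN

end Pool.Agent.Results.MP_411355_ag.ManyPoints
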