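import Pool.Agent.Y88.MH.Zgrad

set_option autoImplicit false

/-!
# Disconnected multigraded Hilbert schemes for positive gradings by the integers

The starting result `Disconnected` gives a grading of `k[x, y, z]` by `ℤ × ℤ` for which a
multigraded Hilbert scheme is not connected. The scheme stays the same if the grading is composed
with a homomorphism that separates finitely many degrees: the monomials in the other degrees are
divisible by finitely many monomials in degrees in which the Hilbert function vanishes. So there are
such examples for positive gradings by `ℤ` (for instance `deg x = 21`, `deg y = 2`,
`deg z = 40`), and for every grading group that has an element of infinite order or of order more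
than `128`, for example for large finite cyclic groups, in any number `n ≥ 3` of variables.
-/

namespace Pool.Agent.Results.MP_411355_ag.PositiveGradings

open Pool.Agent.Results.MP_411355_ag.Disconnected Pool.Agent.Y88.MH CategoryTheory
  AlgebraicGeometry

universe u

/-- For every field `k`, every `n ≥ 3` and every abelian group `B` with an element `β` of infinite
order or of order more than `128` there are a grading of `k[x_1, ..., x_n]` by `B`, in which the
degrees of the variables are positive multiples of `β`, and a function `h : B → ℕ` whose
multigraded Hilbert scheme is `Spec (k × k)`, in particular not connected. -/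
theorem result (k : Type u) [Field k] (n : ℕ) (hn : 3 ≤ n) (B : Type) [AddCommGroup B] (β : B)
    (hβ : ∀ m : ℕ, 1 ≤ m → m ≤ 128 → m • β ≠ 0) :
    ∃ (w : Fin n → B) (h : B → ℕ), (∀ i, ∃ m : ℕ, 0 < m ∧ w i = m • β) ∧
      RepresentsHilb k w h (Spec (CommRingCat.of (k × k)))
        (Spec.map (CommRingCat.ofHom (algebraMap k (k × k)))) ∧
      ¬ ConnectedSpace (Spec (CommRingCat.of (k × k))) := by
  obtain ⟨w, h, hw, H⟩ := cyclic k n hn β hβ
  exact ⟨w, h, hw, H.represents, not_connected_spec k⟩

end Pool.Agent.Results.MP_411355_ag.PositiveGradings
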